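import Pool.Agent.Work.MP_91e6de_nt.BL.Stmts

set_option autoImplicit false

/-!
# MP_91e6de_nt, block BL: height of a tuple of values of polynomials
-/

namespace Pool.Agent.Work.MP_91e6de_nt.BL

open MvPolynomial Height Height.AdmissibleAbsValues Filter Topology

namespace AuxHtC

/-- the homogenisation to degree `e` with the third variable -/
noncomputable def hm {K : Type} [Field K] (e : ℕ) (p : Pol K) : MvPolynomial (Fin 3) K :=
  ∑ k ∈ Finset.range (e + 1),
    rename Fin.castSucc (homogeneousComponent k p) * X 2 ^ (e - k)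

theorem hm_hom {K : Type} [Field K] (e : ℕ) (p : Pol K) : (hm e p).IsHomogeneous e := by
  unfold hm
  refine IsHomogeneous.sum _ _ _ fun k hk => ?_
  have hk' : k ≤ e := by
    have := Finset.mem_range.1 hk
    omega
  have h := ((homogeneousComponent_isHomogeneous k p).rename_isHomogeneous
    (f := (Fin.castSucc : Fin 2 → Fin 3))).mul ((isHomogeneous_X K (2 : Fin 3)).pow (e - k))
  have e1 : k + 1 * (e - k) = e := by omega
  rwa [e1] at h

theorem hm_eval {K : Type} [Field K] (e : ℕ) (p : Pol K) (hp : p.totalDegree ≤ e)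
    (P : Fin 2 → K) : eval ![P 0, P 1, 1] (hm e p) = eval P p := by
  have h1 : p = ∑ k ∈ Finset.range (e + 1), homogeneousComponent k p := by
    conv_lhs => rw [← sum_homogeneousComponent p]
    refine Finset.sum_subset (fun k hk => ?_) fun k _ hk' => ?_
    · rw [Finset.mem_range] at hk ⊢
      omega
    · rw [Finset.mem_range] at hk'
      exact homogeneousComponent_eq_zero k p (by omega)
  have h2 : (![P 0, P 1, 1] : Fin 3 → K) ∘ Fin.castSucc = P := by
    funext i
    fin_cases i <;> rfl
  conv_rhs => rw [h1]
  unfold hm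
  rw [map_sum, map_sum]
  refine Finset.sum_congr rfl fun k _ => ?_
  rw [map_mul, map_pow, eval_X, eval_rename, h2]
  simp

end AuxHtC

set_option linter.unusedVariables false in
open AuxHtC in
theorem pr_HtC (h1 : S_Bd) (h2 : S_IntR) : S_HtC := by
  intro K _ _ k e c hc
  obtain ⟨C, hC⟩ := logHeight_eval_le' (K := K) (N := e) (p := fun l => hm e (c l))
    fun l => hm_hom e (c l)
  refine ⟨C, fun P => ?_⟩
  have h := hC ![P 0, P 1, 1]
  simp only [hm_eval e _ (hc _)] at h
  unfold hP
  linarith

end Pool.Agent.Work.MP_91e6de_nt.BL
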