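import Pool.Agent.Work.MP_91e6de_nt.BL.Stmts

set_option autoImplicit false

/-!
# MP_91e6de_nt, block BL: the limit `h n ^ (1/n) → d`
-/

namespace Pool.Agent.Work.MP_91e6de_nt.BL

open MvPolynomial Height Height.AdmissibleAbsValues Filter Topology

namespace AuxLim

/-- upper bound -/
theorem upper (h : ℕ → ℝ) (d C : ℝ) (hd : 1 < d) (hC : ∀ n, h (n + 1) ≤ d * h n + C) (n : ℕ) :
    h n + |C| / (d - 1) ≤ d ^ n * (h 0 + |C| / (d - 1)) := by
  have hd1 : 0 < d - 1 := by linarith
  induction n with
  | zero => simp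
  | succ n ih =>
    have h1 := hC n
    have h2 : C ≤ |C| := le_abs_self C
    have h3 : d * (h n + |C| / (d - 1)) ≤ d * (d ^ n * (h 0 + |C| / (d - 1))) :=
      mul_le_mul_of_nonneg_left ih (by linarith)
    have h4 : |C| + |C| / (d - 1) = d * (|C| / (d - 1)) := by
      field_simp
      ring
    calc h (n + 1) + |C| / (d - 1) ≤ d * h n + (|C| + |C| / (d - 1)) := by linarith
      _ = d * (h n + |C| / (d - 1)) := by rw [mul_add, ← h4]
      _ ≤ d * (d ^ n * (h 0 + |C| / (d - 1))) := h3
      _ = _ := by ring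

open Classical in
/-- the counting function -/
noncomputable def z (Z : Set ℕ) (n : ℕ) : ℝ :=
  (((Finset.range n).filter (fun n => n ∈ Z)).card : ℝ)

theorem z_nonneg (Z : Set ℕ) (n : ℕ) : 0 ≤ z Z n := by
  unfold z
  positivity

theorem z_mono (Z : Set ℕ) {a b : ℕ} (h : a ≤ b) : z Z a ≤ z Z b := by
  classical
  unfold z
  have : Finset.range a ⊆ Finset.range b := by
    intro x hx
    rw [Finset.mem_range] at hx ⊢
    omega
  exact_mod_cast Finset.card_le_card (Finset.filter_subset_filter _ this)

theorem z_succ (Z : Set ℕ) {n : ℕ} (hn : n ∈ Z) : z Z (n + 1) = z Z n + 1 := by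
  classical
  unfold z
  have : (Finset.range (n + 1)).filter (fun n => n ∈ Z) =
      insert n ((Finset.range n).filter (fun n => n ∈ Z)) := by
    ext x
    simp only [Finset.mem_filter, Finset.mem_range, Finset.mem_insert]
    constructor
    · rintro ⟨h1, h2⟩
      rcases Nat.lt_succ_iff_lt_or_eq.1 h1 with h | h
      · exact Or.inr ⟨h, h2⟩
      · exact Or.inl h
    · rintro (h | h)
      · subst h
        exact ⟨Nat.lt_succ_self _, hn⟩
      · exact ⟨Nat.lt_succ_of_lt h.1, h.2⟩
  rw [this, Finset.card_insert_of_notMem (by simp)]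
  push_cast
  rfl

/-- iteration of the weak step -/
theorem weak (g : ℕ → ℝ) (q : ℝ) (n₁ : ℕ) (hg : ∀ n, n₁ ≤ n → g n + q ≤ g (n + 1)) (m n : ℕ)
    (hn : n₁ ≤ n) : g n + m * q ≤ g (n + m) := by
  induction m with
  | zero => simp
  | succ m ih =>
    have := hg (n + m) (by omega)
    have e : n + (m + 1) = n + m + 1 := by ring
    rw [e]
    push_cast
    linarith

/-- the lower bound of the sequence along residue classes -/
theorem lower (g : ℕ → ℝ) (Z : Set ℕ) (q a : ℝ) (n₁ m : ℕ) (hm : 1 ≤ m) (ha : 0 ≤ a) (hq : q ≤ 0)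
    (hg0 : ∀ n, n₁ ≤ n → 0 ≤ g n)
    (hg : ∀ n, n₁ ≤ n → g n + q ≤ g (n + 1))
    (hZ : ∀ n, n₁ ≤ n → n ∉ Z → g n + a ≤ g (n + m)) (N : ℕ) (hN : n₁ ≤ N) :
    (((N : ℝ) - n₁) / m - 1) * a ≤ g N + (a - m * q) * z Z N := by
  have hmpos : (0 : ℝ) < m := by exact_mod_cast hm
  set D : ℝ := a - m * q with hD
  have hD0 : 0 ≤ D := by
    have : (m : ℝ) * q ≤ 0 := mul_nonpos_of_nonneg_of_nonpos hmpos.le hq
    linarith
  have step : ∀ n, n₁ ≤ n → g n + D * z Z n + a ≤ g (n + m) + D * z Z (n + m) := by
    intro n hn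
    by_cases hnZ : n ∈ Z
    · have h1 := weak g q n₁ hg m n hn
      have h2 : z Z n + 1 ≤ z Z (n + m) := by
        rw [← z_succ Z hnZ]
        exact z_mono Z (by omega)
      have h3 : D * (z Z n + 1) ≤ D * z Z (n + m) := mul_le_mul_of_nonneg_left h2 hD0
      have h4 : D * (z Z n + 1) = D * z Z n + D := by ring
      linarith
    · have h1 := hZ n hn hnZ
      have h2 : z Z n ≤ z Z (n + m) := z_mono Z (by omega)
      have h3 : D * z Z n ≤ D * z Z (n + m) := mul_le_mul_of_nonneg_left h2 hD0
      linarith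
  have iter : ∀ k n, n₁ ≤ n → g n + D * z Z n + k * a ≤ g (n + m * k) + D * z Z (n + m * k) := by
    intro k n hn
    induction k with
    | zero => simp
    | succ k ih =>
      have h1 := step (n + m * k) (by omega)
      have e : n + m * (k + 1) = n + m * k + m := by ring
      rw [e]
      push_cast
      linarith
  have hdiv : n₁ + (N - n₁) % m + m * ((N - n₁) / m) = N := by
    have := Nat.mod_add_div (N - n₁) m
    omega
  have h1 := iter ((N - n₁) / m) (n₁ + (N - n₁) % m) (by omega)
  rw [hdiv] at h1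
  have h2 : 0 ≤ g (n₁ + (N - n₁) % m) + D * z Z (n₁ + (N - n₁) % m) :=
    add_nonneg (hg0 _ (by omega)) (mul_nonneg hD0 (z_nonneg _ _))
  have h3 : ((N : ℝ) - n₁) / m - 1 ≤ (((N - n₁) / m : ℕ) : ℝ) := by
    rw [sub_le_iff_le_add, div_le_iff₀ hmpos]
    have h4 : N - n₁ < m * ((N - n₁) / m + 1) := Nat.lt_mul_div_succ _ (by omega)
    have h5 : N ≤ ((N - n₁) / m + 1) * m + n₁ := by
      rw [mul_comm]
      omega
    have h6 : (N : ℝ) ≤ ((((N - n₁) / m : ℕ) : ℝ) + 1) * m + n₁ := by exact_mod_cast h5
    linarith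
  have h7 : (((N : ℝ) - n₁) / m - 1) * a ≤ (((N - n₁) / m : ℕ) : ℝ) * a :=
    mul_le_mul_of_nonneg_right h3 ha
  linarith

end AuxLim

open AuxLim in
theorem pr_Lim : S_Lim := by
  intro h d c δ C m₀ hd hc hδ h0 htop hup hlow hstr
  have hd0 : 0 < d := by linarith
  have hld : 0 < Real.log d := Real.log_pos hd
  -- it suffices to control the logarithm
  have key : Tendsto (fun n : ℕ => Real.log (h n) / n) atTop (𝓝 (Real.log d)) := by
    rw [tendsto_order]
    constructor
    · -- lower bound
      intro a ha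
      set a' : ℝ := (a + Real.log d) / 2 with ha'
      have haa' : a < a' := by rw [ha']; linarith
      have ha'd : a' < Real.log d := by rw [ha']; linarith
      -- choice of `m`
      have hmev : ∀ᶠ m : ℕ in atTop, m₀ ≤ m ∧ 1 ≤ m ∧ 0 ≤ m * Real.log d + Real.log (δ / 2) ∧
          m * a' ≤ m * Real.log d + Real.log (δ / 2) := by
        have e1 : Tendsto (fun m : ℕ => (m : ℝ) * Real.log d) atTop atTop :=
          tendsto_natCast_atTop_atTop.atTop_mul_const hld
        have e2 : Tendsto (fun m : ℕ => (m : ℝ) * (Real.log d - a')) atTop atTop :=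
          tendsto_natCast_atTop_atTop.atTop_mul_const (by linarith)
        filter_upwards [eventually_ge_atTop m₀, eventually_ge_atTop 1,
          e1.eventually_ge_atTop (- Real.log (δ / 2)), e2.eventually_ge_atTop (- Real.log (δ / 2))]
          with m h1 h2 h3 h4
        refine ⟨h1, h2, by linarith, ?_⟩
        have : (m : ℝ) * (Real.log d - a') = m * Real.log d - m * a' := by ring
        linarith
      obtain ⟨m, hm0, hm1, hA0, hA1⟩ := hmev.exists
      obtain ⟨Z, C', hZd, hZ⟩ := hstr m hm0
      have hmpos : (0 : ℝ) < m := by exact_mod_cast hm1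
      set lA : ℝ := m * Real.log d + Real.log (δ / 2) with hlA
      set q : ℝ := min (Real.log (c / 2)) 0 with hq
      have hq0 : q ≤ 0 := min_le_right _ _
      have hqc : q ≤ Real.log (c / 2) := min_le_left _ _
      set D : ℝ := lA - m * q with hD
      have hD0 : 0 ≤ D := by
        have : (m : ℝ) * q ≤ 0 := mul_nonpos_of_nonneg_of_nonpos hmpos.le hq0
        linarith
      have hdm : 0 < d ^ m := pow_pos hd0 m
      -- the threshold
      have hev : ∀ᶠ n in atTop, 1 ≤ h n ∧ C ≤ c / 2 * h n ∧ C' ≤ δ / 2 * d ^ m * h n ∧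
          c * h n ≤ h (n + 1) + C := by
        have t1 : Tendsto (fun n => c / 2 * h n) atTop atTop := htop.const_mul_atTop (by positivity)
        have t2 : Tendsto (fun n => δ / 2 * d ^ m * h n) atTop atTop :=
          htop.const_mul_atTop (by positivity)
        filter_upwards [htop.eventually_ge_atTop 1, t1.eventually_ge_atTop C,
          t2.eventually_ge_atTop C', hlow] with n h1 h2 h3 h4
        exact ⟨h1, h2, h3, h4⟩
      obtain ⟨n₁, hn₁⟩ := eventually_atTop.1 hev
      have hpos : ∀ n, n₁ ≤ n → 0 < h n := fun n hn => lt_of_lt_of_le one_pos (hn₁ n hn).1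
      have hg0 : ∀ n, n₁ ≤ n → 0 ≤ Real.log (h n) := fun n hn => Real.log_nonneg (hn₁ n hn).1
      have hg : ∀ n, n₁ ≤ n → Real.log (h n) + q ≤ Real.log (h (n + 1)) := by
        intro n hn
        obtain ⟨h1, h2, h3, h4⟩ := hn₁ n hn
        have h5 : c / 2 * h n ≤ h (n + 1) := by linarith
        have h6 : Real.log (c / 2 * h n) ≤ Real.log (h (n + 1)) :=
          Real.log_le_log (mul_pos (by positivity) (hpos n hn)) h5
        rw [Real.log_mul (by positivity) (hpos n hn).ne'] at h6
        linarith
      have hZ' : ∀ n, n₁ ≤ n → n ∉ Z → Real.log (h n) + lA ≤ Real.log (h (n + m)) := by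
        intro n hn hnZ
        obtain ⟨h1, h2, h3, h4⟩ := hn₁ n hn
        have h5 : δ / 2 * d ^ m * h n ≤ h (n + m) := by
          have := hZ n hnZ
          have e : δ * d ^ m * h n = δ / 2 * d ^ m * h n + δ / 2 * d ^ m * h n := by ring
          linarith
        have h6 : Real.log (δ / 2 * d ^ m * h n) ≤ Real.log (h (n + m)) :=
          Real.log_le_log (mul_pos (by positivity) (hpos n hn)) h5
        rw [Real.log_mul (by positivity) (hpos n hn).ne', Real.log_mul (by positivity) hdm.ne',
          Real.log_pow] at h6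
        linarith
      have low := lower (fun n => Real.log (h n)) Z q lA n₁ m hm1 hA0 hq0 hg0 hg hZ'
      -- choice of `ε`
      set ε : ℝ := (a' - a) / 2 / (D + 1) with hε
      have hε0 : 0 < ε := div_pos (by linarith) (by linarith)
      have hεD : D * ε ≤ (a' - a) / 2 := by
        rw [hε, mul_div_assoc', div_le_iff₀ (by linarith)]
        nlinarith
      have tN : Tendsto (fun N : ℕ => (N : ℝ) * ((a' - a) / 2)) atTop atTop :=
        tendsto_natCast_atTop_atTop.atTop_mul_const (by linarith)
      filter_upwards [eventually_ge_atTop n₁, eventually_ge_atTop 1, hZd ε hε0,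
        tN.eventually_gt_atTop (((n₁ : ℝ) / m + 1) * lA)] with N hN hN1 hzN hNt
      have hNpos : (0 : ℝ) < N := by exact_mod_cast hN1
      rw [lt_div_iff₀ hNpos]
      have l1 := low N hN
      have l2 : z Z N ≤ ε * N := hzN
      have l3 : D * z Z N ≤ D * (ε * N) := mul_le_mul_of_nonneg_left l2 hD0
      have l4 : D * (ε * N) ≤ (a' - a) / 2 * N := by
        rw [← mul_assoc]
        exact mul_le_mul_of_nonneg_right hεD hNpos.le
      have l5 : (((N : ℝ) - n₁) / m - 1) * lA = N * (lA / m) - ((n₁ : ℝ) / m + 1) * lA := by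
        ring
      have l6 : a' ≤ lA / m := by
        rw [le_div_iff₀ hmpos]
        linarith
      have l7 : (N : ℝ) * a' ≤ N * (lA / m) := mul_le_mul_of_nonneg_left l6 hNpos.le
      have l8 : a * N = N * a' - N * ((a' - a) / 2) - N * ((a' - a) / 2) := by ring
      linarith
    · -- upper bound
      intro b hb
      set M : ℝ := h 0 + |C| / (d - 1) + 1 with hM
      have hd1 : 0 < d - 1 := by linarith
      have hCd : 0 ≤ |C| / (d - 1) := div_nonneg (abs_nonneg _) hd1.le
      have hM0 : 0 < M := by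
        have := h0 0
        linarith
      have hle : ∀ n, h n ≤ d ^ n * M := by
        intro n
        have h1 := upper h d C hd hup n
        have h2 : 0 ≤ d ^ n := (pow_pos hd0 n).le
        have h3 : d ^ n * M = d ^ n * (h 0 + |C| / (d - 1)) + d ^ n := by rw [hM]; ring
        linarith
      have tN : Tendsto (fun N : ℕ => (N : ℝ) * (b - Real.log d)) atTop atTop :=
        tendsto_natCast_atTop_atTop.atTop_mul_const (by linarith)
      filter_upwards [eventually_ge_atTop 1, htop.eventually_ge_atTop 1,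
        tN.eventually_gt_atTop (Real.log M)] with N hN1 hNh hNt
      have hNpos : (0 : ℝ) < N := by exact_mod_cast hN1
      rw [div_lt_iff₀ hNpos]
      have l1 : Real.log (h N) ≤ Real.log (d ^ N * M) :=
        Real.log_le_log (by linarith) (hle N)
      rw [Real.log_mul (pow_pos hd0 N).ne' hM0.ne', Real.log_pow] at l1
      have l2 : b * N = N * Real.log d + N * (b - Real.log d) := by ring
      linarith
  have hexp : Tendsto (fun n : ℕ => Real.exp (Real.log (h n) / n)) atTop (𝓝 (Real.exp (Real.log d))) :=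
    (Real.continuous_exp.tendsto _).comp key
  rw [Real.exp_log hd0] at hexp
  refine hexp.congr' ?_
  filter_upwards [htop.eventually_ge_atTop 1] with n hn
  rw [Real.rpow_def_of_pos (by linarith)]
  congr 1
  ring

end Pool.Agent.Work.MP_91e6de_nt.BL
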