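import Pool.Agent.Work.MP_91e6de_nt.Bdx.B01
import Pool.Agent.Work.MP_91e6de_nt.Bdx.B03
import Pool.Agent.Work.MP_91e6de_nt.BL.I_HtC
import Pool.Agent.Work.MP_91e6de_nt.Bdx.B02
import Pool.Agent.Work.MP_91e6de_nt.BL.I_Lim

set_option autoImplicit false

/-!
# MP_91e6de_nt, block BL: assembly
-/

namespace Pool.Agent.Work.MP_91e6de_nt.BL

theorem all_Near : S_Near := pr_Near pr_Bd

theorem all_Sel : S_Sel := pr_Sel all_Near

theorem all_Aux : S_Aux := pr_Aux pr_dim (pr_Ind pr_dim) pr_Exp (pr_Gr pr_dim) pr_Num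

theorem all_AuxF : S_AuxF := pr_AuxF all_Aux pr_It pr_Cop

theorem all_Key1 : S_Key1 := pr_Key1 all_AuxF (pr_Loc pr_Bd) pr_PFH pr_IntR pr_It

theorem all_Key : S_Key := pr_Key all_Key1 (pr_Int pr_IntR) all_Sel pr_H1

theorem all_Up : S_Up := pr_Up pr_Bd pr_IntR pr_PFH

theorem all_Rel : S_Rel := pr_Rel (pr_Rel0 pr_dim) (pr_RelF pr_Bez)

theorem all_Low : S_Low := pr_Low all_Rel pr_Root (pr_HtC pr_Bd pr_IntR) pr_Inj pr_Dom pr_H1

theorem all_Vis : S_Vis := pr_Vis (pr_VisI pr_Gap pr_Bez pr_Inj pr_Dom pr_It) pr_Gap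

theorem all_Main : S_Main :=
  pr_Main all_Key all_Up (pr_Nor pr_H1) all_Low all_Vis pr_Lim pr_Inj pr_H1

theorem all_BF : S_BF := pr_BF (pr_CopH pr_Hom1) pr_Hom1

end Pool.Agent.Work.MP_91e6de_nt.BL
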