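import Mathlib

set_option autoImplicit false

/-!
# MP_91e6de_nt, block BL: the Kawaguchi-Silverman conjecture for polynomial maps of the plane with
infinitely many base points at infinity. Definitions. See `BL/PROOF.md`.
-/

namespace Pool.Agent.Work.MP_91e6de_nt.BL

open MvPolynomial Height Height.AdmissibleAbsValues

/-- polynomials in two variables -/
abbrev Pol (K : Type) [Field K] := MvPolynomial (Fin 2) K

section
variable {K : Type} [Field K]

/-- the coordinates of the `n`-th iterate of the polynomial map `f` of the plane -/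
noncomputable def it (f : Fin 2 → Pol K) : ℕ → Fin 2 → Pol K
  | 0 => fun i => X i
  | n + 1 => fun i => aeval (it f n) (f i)

/-- the orbit of the point `P` under the polynomial map `f` of the plane -/
noncomputable def orb (f : Fin 2 → Pol K) (P : Fin 2 → K) : ℕ → Fin 2 → K
  | 0 => P
  | n + 1 => fun i => eval (orb f P n) (f i)

/-- the degree of the `n`-th iterate -/
noncomputable def dg (f : Fin 2 → Pol K) (n : ℕ) : ℕ :=
  max (it f n 0).totalDegree (it f n 1).totalDegree

/-- Zariski density of a sequence of points of the plane -/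
def Dense2 (P : ℕ → Fin 2 → K) : Prop := ∀ R : Pol K, (∀ n, eval (P n) R = 0) → R = 0

/-- polynomials of total degree at most `m` -/
noncomputable abbrev AA (K : Type) [Field K] (m : ℕ) : Submodule K (Pol K) :=
  restrictTotalDegree (Fin 2) K m

/-- combinations of the products of degree `t` of `G₁`, `G₂`, with coefficients of total degree at
most `s` -/
noncomputable def EE (G₁ G₂ : Pol K) (t s : ℕ) : Submodule K (Pol K) where
  carrier := {T | ∃ a : ℕ → Pol K, (∀ c, (a c).totalDegree ≤ s) ∧
    T = ∑ c ∈ Finset.range (t + 1), a c * G₁ ^ (t - c) * G₂ ^ c}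
  add_mem' := by
    rintro _ _ ⟨a, ha, rfl⟩ ⟨b, hb, rfl⟩
    refine ⟨a + b, fun c => (totalDegree_add _ _).trans (max_le (ha c) (hb c)), ?_⟩
    rw [← Finset.sum_add_distrib]
    refine Finset.sum_congr rfl fun c _ => ?_
    simp only [Pi.add_apply]
    ring
  zero_mem' := ⟨0, fun c => by simp, by simp⟩
  smul_mem' := by
    rintro x _ ⟨a, ha, rfl⟩
    refine ⟨fun c => C x * a c, fun c => ?_, ?_⟩
    · refine (totalDegree_mul _ _).trans ?_
      rw [totalDegree_C, zero_add]
      exact ha c
    · rw [smul_eq_C_mul, Finset.mul_sum]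
      refine Finset.sum_congr rfl fun c _ => ?_
      ring

/-- the multiples of `Q ^ r` -/
def II (Q : Pol K) (r : ℕ) : Submodule K (Pol K) where
  carrier := {T | Q ^ r ∣ T}
  add_mem' := fun ha hb => dvd_add ha hb
  zero_mem' := dvd_zero _
  smul_mem' := by
    intro x T hT
    rw [smul_eq_C_mul]
    exact Dvd.dvd.mul_left hT _

/-- `Q` is a form of degree `q ≥ 1` which divides the forms of degree `d'` of `u 0` and `u 1`
(both of degree at most `d'`) -/
structure Dec (Q : Pol K) (q d' : ℕ) (u : Fin 2 → Pol K) : Prop where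
  hom : Q.IsHomogeneous q
  ne : Q ≠ 0
  q1 : 1 ≤ q
  qd : q ≤ d'
  dec : ∀ i, ∃ α β : Pol K, u i = Q * α + β ∧ α.totalDegree + q ≤ d' ∧ β.totalDegree + 1 ≤ d'

/-- the forms `Q` (degree `q`) and `Q'` (degree `q'`) have no common zero at infinity -/
def CopF (Q Q' : Pol K) (q q' : ℕ) : Prop :=
  ∃ L : ℕ, q ≤ L ∧ q' ≤ L ∧ ∀ i : Fin 2, ∃ A B : Pol K, A.IsHomogeneous (L - q) ∧
    B.IsHomogeneous (L - q') ∧ (X i : Pol K) ^ L = A * Q + B * Q'

/-- size of the point `(x : y : 1)` at the absolute value `v` -/
noncomputable def nn (v : AbsoluteValue K ℝ) (P : Fin 2 → K) : ℝ :=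
  max (max (v (P 0)) (v (P 1))) 1

/-- logarithmic height of the point `(x : y : 1)` (not normalised) -/
noncomputable def hP [NumberField K] (P : Fin 2 → K) : ℝ := logHeight ![P 0, P 1, 1]

/-- one of the absolute values of the product formula -/
def IsPl [NumberField K] (v : AbsoluteValue K ℝ) : Prop :=
  v ∈ archAbsVal (K := K) ∨ v ∈ nonarchAbsVal (K := K)

/-- the set `Z` of natural numbers has density zero -/
def Dens0 (Z : Set ℕ) : Prop := open Classical in
  ∀ ε : ℝ, 0 < ε → ∀ᶠ N : ℕ in Filter.atTop,
    (((Finset.range N).filter (fun n => n ∈ Z)).card : ℝ) ≤ ε * N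

/-- the hypothesis on the base points at infinity: arbitrarily many forms over `K` without common
zeros in pairs, each of them dividing the leading forms of an iterate -/
def Bases (f : Fin 2 → Pol K) (d : ℕ) : Prop :=
  ∀ r : ℕ, ∃ (Q : Fin r → Pol K) (q j : Fin r → ℕ),
    (∀ i i', i ≠ i' → CopF (Q i) (Q i') (q i) (q i')) ∧
    ∀ i, Dec (Q i) (q i) (d ^ j i) (it f (j i))

end

end Pool.Agent.Work.MP_91e6de_nt.BL
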