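import Pool.Agent.Work.MP_91e6de_nt.BL.Defs

set_option autoImplicit false

/-!
# MP_91e6de_nt, block BL: statements of the items

All items are independent; each takes some of the statements below as explicit hypotheses.
-/

namespace Pool.Agent.Work.MP_91e6de_nt.BL

open MvPolynomial Height Height.AdmissibleAbsValues Filter Topology

/-! ## The auxiliary polynomial -/

/-- dimension of the space of polynomials of degree at most `m` -/
def S_dim : Prop := ∀ (K : Type) [Field K] (m : ℕ), FiniteDimensional K (AA K m) ∧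
  2 * Module.finrank K (AA K m) = (m + 1) * (m + 2)

/-- lower bound for the dimension of `EE` -/
def S_Ind : Prop := ∀ (K : Type) [Field K] (G₁ G₂ : Pol K) (t s : ℕ), IsRelPrime G₁ G₂ →
  1 ≤ G₂.totalDegree → G₂.totalDegree ≤ s → FiniteDimensional K (EE G₁ G₂ t s) ∧
  (t + 1) * Module.finrank K (AA K s) ≤
    Module.finrank K (EE G₁ G₂ t s) + t * Module.finrank K (AA K (s - G₂.totalDegree))

/-- elements of `EE` modulo powers of `Q` -/
def S_Exp : Prop := ∀ (K : Type) [Field K] (Q : Pol K) (q d' : ℕ) (u : Fin 2 → Pol K),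
  Dec Q q d' u → ∀ (Ψ₁ Ψ₂ : Pol K) (e t s : ℕ), Ψ₁.totalDegree ≤ e → Ψ₂.totalDegree ≤ e →
  ∀ T ∈ EE (aeval u Ψ₁) (aeval u Ψ₂) t s, ∀ r : ℕ, ∃ T' : Pol K,
    T'.totalDegree ≤ min (d' * (t * e)) ((d' - 1) * (t * e) + r) + s ∧ Q ^ (r + 1) ∣ T - T'

/-- one step of the filtration by the powers of `Q` -/
def S_Gr : Prop := ∀ (K : Type) [Field K] (Q : Pol K) (q r B : ℕ) (E : Submodule K (Pol K)),
  FiniteDimensional K E → Q ≠ 0 → Q.totalDegree = q → 1 ≤ q →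
  (∀ T ∈ E, ∃ T' : Pol K, T'.totalDegree ≤ B ∧ Q ^ (r + 1) ∣ T - T') →
  Module.finrank K (E ⊓ II Q r : Submodule K (Pol K)) ≤
    Module.finrank K (E ⊓ II Q (r + 1) : Submodule K (Pol K)) + q * (B + 1 - q * r)

/-- the numerical inequality -/
def S_Num : Prop := ∀ q d' e t D s : ℕ, 1 ≤ q → q ≤ d' → 1 ≤ e → t = 32 * q * d' ^ 2 →
  D = d' * e → s = 32 * d' ^ 2 * D + 4 * q * D →
  2 * ∑ r ∈ Finset.range s,
      q * (min (d' * (t * e)) ((d' - 1) * (t * e) + r) + t * D + 1 - q * r) +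
    t * ((t * D - D + 1) * (t * D - D + 2)) < (t + 1) * ((t * D + 1) * (t * D + 2))

/-- the auxiliary polynomial -/
def S_Aux : Prop := ∀ (K : Type) [Field K] (Q : Pol K) (q d' : ℕ) (u : Fin 2 → Pol K),
  Dec Q q d' u → ∀ (Ψ₁ Ψ₂ : Pol K) (e : ℕ), 1 ≤ e → Ψ₁.totalDegree ≤ e → Ψ₂.totalDegree ≤ e →
  IsRelPrime (aeval u Ψ₁ : Pol K) (aeval u Ψ₂) → (aeval u Ψ₂ : Pol K).totalDegree = d' * e →
  ∃ (R : Pol K) (a : ℕ → Pol K), R ≠ 0 ∧
    (∀ k, (a k).totalDegree ≤ 32 * q * d' ^ 2 * (d' * e)) ∧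
    Q ^ (32 * d' ^ 2 * (d' * e) + 4 * q * (d' * e)) * R =
      ∑ k ∈ Finset.range (32 * q * d' ^ 2 + 1),
        a k * (aeval u Ψ₁ : Pol K) ^ (32 * q * d' ^ 2 - k) * (aeval u Ψ₂ : Pol K) ^ k

/-- iterates and orbits -/
def S_It : Prop := ∀ (K : Type) [Field K] (f : Fin 2 → Pol K),
  (∀ n m i, it f (n + m) i = aeval (it f m) (it f n i)) ∧
  (∀ P n m i, eval (orb f P n) (it f m i) = orb f P (n + m) i)

/-- two coprime combinations of the coordinates -/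
def S_Cop : Prop := ∀ (K : Type) [Field K] [CharZero K] (F : Fin 2 → Pol K) (D : ℕ), 1 ≤ D →
  max (F 0).totalDegree (F 1).totalDegree = D →
  ∃ (i i' : Fin 2) (c : K), (F i).totalDegree = D ∧ IsRelPrime (F i' + C c) (F i)

/-- the auxiliary polynomial for the iterates of `f` -/
def S_AuxF : Prop := ∀ (K : Type) [Field K] [CharZero K] (f : Fin 2 → Pol K) (d : ℕ) (Q : Pol K)
  (q j m : ℕ), 2 ≤ d → (∀ n, dg f n = d ^ n) → Dec Q q (d ^ j) (it f j) → j ≤ m →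
  ∃ (R : Pol K) (a : ℕ → Pol K) (i i' : Fin 2) (c : K), R ≠ 0 ∧
    (∀ k, (a k).totalDegree ≤ 32 * q * (d ^ j) ^ 2 * d ^ m) ∧
    Q ^ (32 * (d ^ j) ^ 2 * d ^ m + 4 * q * d ^ m) * R =
      ∑ k ∈ Finset.range (32 * q * (d ^ j) ^ 2 + 1),
        a k * (it f m i' + C c) ^ (32 * q * (d ^ j) ^ 2 - k) * it f m i ^ k

/-! ## Heights -/

/-- upper bound for the values of a polynomial -/
def S_Bd : Prop := ∀ (K : Type) [Field K] (v : AbsoluteValue K ℝ) (R : Pol K),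
  ∃ B : ℝ, 1 ≤ B ∧ ∀ P : Fin 2 → K, v (eval P R) ≤ B * nn v P ^ R.totalDegree

/-- from inequalities at all places to an inequality of heights (product formula) -/
def S_PFH : Prop := ∀ (K : Type) [Field K] [NumberField K] (T : Finset (AbsoluteValue K ℝ))
  (B : ℝ) (w t : ℕ), 1 ≤ B → ∃ C : ℝ, ∀ (a : K) (P P' : Fin 2 → K), a ≠ 0 →
  (∀ v, IsPl v → v a * nn v P ^ w ≤ B * nn v P' ^ t) →
  (∀ v ∈ nonarchAbsVal (K := K), v ∉ T → v a * nn v P ^ w ≤ nn v P' ^ t) →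
  w * hP P ≤ t * hP P' + C

/-- polynomials are integral at almost all places -/
def S_IntR : Prop := ∀ (K : Type) [Field K] [NumberField K] (R : Pol K),
  ∃ T : Finset (AbsoluteValue K ℝ), ∀ v ∈ nonarchAbsVal (K := K), v ∉ T →
    ∀ P : Fin 2 → K, v (eval P R) ≤ nn v P ^ R.totalDegree

/-- orbits are integral outside a finite set of places -/
def S_Int : Prop := ∀ (K : Type) [Field K] [NumberField K] (f : Fin 2 → Pol K) (P : Fin 2 → K),
  ∃ T : Finset (AbsoluteValue K ℝ), (∀ v ∈ archAbsVal (K := K), v ∈ T) ∧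
    ∀ v ∈ nonarchAbsVal (K := K), v ∉ T → ∀ n i, v (orb f P n i) ≤ 1

/-- the local inequality from the auxiliary polynomial -/
def S_Loc : Prop := ∀ (K : Type) [Field K] (v : AbsoluteValue K ℝ) (Q R G₁ G₂ : Pol K)
  (a : ℕ → Pol K) (q s s' t : ℕ) (κ : ℝ), 0 < κ → (∀ k, (a k).totalDegree ≤ s') → s' ≤ q * s →
  Q ^ s * R = ∑ k ∈ Finset.range (t + 1), a k * G₁ ^ (t - k) * G₂ ^ k →
  ∃ B : ℝ, 1 ≤ B ∧ ∀ P : Fin 2 → K, (κ * nn v P ^ q ≤ v (eval P Q) ∨ nn v P = 1) →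
    v (eval P R) * nn v P ^ (q * s - s') ≤
      B * (max 1 (max (v (eval P G₁)) (v (eval P G₂)))) ^ t

/-- two coprime forms are not both small -/
def S_Near : Prop := ∀ (K : Type) [Field K] (v : AbsoluteValue K ℝ) (Q Q' : Pol K) (q q' : ℕ),
  Q.IsHomogeneous q → Q'.IsHomogeneous q' → CopF Q Q' q q' → ∃ κ : ℝ, 0 < κ ∧
  ∀ P : Fin 2 → K, κ * nn v P ^ q ≤ v (eval P Q) ∨ κ * nn v P ^ q' ≤ v (eval P Q') ∨ nn v P = 1

/-- one of many pairwise coprime forms is not small at all places of `T` -/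
def S_Sel : Prop := ∀ (K : Type) [Field K] (T : Finset (AbsoluteValue K ℝ)) (r : ℕ)
  (Q : Fin r → Pol K) (q : Fin r → ℕ), T.card < r → (∀ i, (Q i).IsHomogeneous (q i)) →
  (∀ i i', i ≠ i' → CopF (Q i) (Q i') (q i) (q i')) → ∃ κ : ℝ, 0 < κ ∧
  ∀ P : Fin 2 → K, ∃ i, ∀ v ∈ T, κ * nn v P ^ q i ≤ v (eval P (Q i)) ∨ nn v P = 1

/-- the height inequality for one form -/
def S_Key1 : Prop := ∀ (K : Type) [Field K] [NumberField K] (f : Fin 2 → Pol K) (d : ℕ)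
  (Q : Pol K) (q j m : ℕ), 2 ≤ d → (∀ n, dg f n = d ^ n) → Dec Q q (d ^ j) (it f j) → j ≤ m →
  ∀ (T : Finset (AbsoluteValue K ℝ)) (κ : ℝ), (∀ v ∈ archAbsVal (K := K), v ∈ T) → 0 < κ →
  ∃ (R : Pol K) (C : ℝ), R ≠ 0 ∧ ∀ P : Fin 2 → K,
    (∀ v ∈ nonarchAbsVal (K := K), v ∉ T → (∀ i, v (P i) ≤ 1) ∧ ∀ i, v (orb f P m i) ≤ 1) →
    (∀ v ∈ T, κ * nn v P ^ q ≤ v (eval P Q) ∨ nn v P = 1) → eval P R ≠ 0 →
    (q : ℝ) / (8 * ((d : ℝ) ^ j) ^ 2) * (d : ℝ) ^ m * hP P ≤ hP (orb f P m) + C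

/-- the height inequality along the orbit -/
def S_Key : Prop := ∀ (K : Type) [Field K] [NumberField K] (f : Fin 2 → Pol K) (d : ℕ), 2 ≤ d →
  (∀ n, dg f n = d ^ n) → Bases f d → ∀ P : Fin 2 → K, ∃ (δ : ℝ) (m₀ : ℕ), 0 < δ ∧ ∀ m, m₀ ≤ m →
  ∃ (Z : Pol K) (C : ℝ), Z ≠ 0 ∧ ∀ n, eval (orb f P n) Z ≠ 0 →
    δ * (d : ℝ) ^ m * hP (orb f P n) ≤ hP (orb f P (n + m)) + C

/-- upper bound for the height of the image -/
def S_Up : Prop := ∀ (K : Type) [Field K] [NumberField K] (f : Fin 2 → Pol K) (d : ℕ),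
  (∀ i, (f i).totalDegree ≤ d) → ∃ C : ℝ, ∀ P : Fin 2 → K,
    hP (fun i => eval P (f i)) ≤ d * hP P + C

/-- comparison with the heights of the coordinates -/
def S_H1 : Prop := ∀ (K : Type) [Field K] [NumberField K] (P : Fin 2 → K), 0 ≤ hP P ∧
  hP P ≤ logHeight₁ (P 0) + logHeight₁ (P 1) ∧ logHeight₁ (P 0) ≤ hP P ∧ logHeight₁ (P 1) ≤ hP P

/-- Northcott -/
def S_Nor : Prop := ∀ (K : Type) [Field K] [NumberField K] (P : ℕ → Fin 2 → K),
  Function.Injective P → Tendsto (fun n => hP (P n)) atTop atTop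

/-- height of a root -/
def S_Root : Prop := ∀ (K : Type) [Field K] [NumberField K] (k : ℕ), ∃ C : ℝ,
  ∀ (c : Fin (k + 1) → K) (x : K), c ≠ 0 → ∑ l, c l * x ^ (l : ℕ) = 0 →
    logHeight₁ x ≤ logHeight c + C

/-- height of a tuple of values of polynomials -/
def S_HtC : Prop := ∀ (K : Type) [Field K] [NumberField K] (k e : ℕ)
  (c : Fin (k + 1) → Pol K), (∀ l, (c l).totalDegree ≤ e) → ∃ C : ℝ, ∀ P : Fin 2 → K,
    logHeight (fun l => eval P (c l)) ≤ e * hP P + C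

/-! ## Dense orbits -/

/-- dense orbits are injective -/
def S_Inj : Prop := ∀ (K : Type) [Field K] (f : Fin 2 → Pol K) (P : Fin 2 → K),
  Dense2 (orb f P) → Function.Injective (orb f P)

/-- a map with a dense orbit is dominant -/
def S_Dom : Prop := ∀ (K : Type) [Field K] (f : Fin 2 → Pol K) (P : Fin 2 → K),
  Dense2 (orb f P) → ∀ Φ : Pol K, (aeval f Φ : Pol K) = 0 → Φ = 0

/-- Bezout, qualitative -/
def S_Bez : Prop := ∀ (K : Type) [Field K] (E A : Pol K), Irreducible E → ¬ E ∣ A →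
  Set.Finite {P : Fin 2 → K | eval P E = 0 ∧ eval P A = 0}

/-- a non trivial relation -/
def S_Rel0 : Prop := ∀ (K : Type) [Field K] (f : Fin 2 → Pol K) (i : Fin 2),
  ∃ (k : ℕ) (c : Fin (k + 1) → Pol K), c ≠ 0 ∧
    ∑ l, (aeval f (c l) : Pol K) * X i ^ (l : ℕ) = 0

/-- polynomials without common factor have finitely many common zeros -/
def S_RelF : Prop := ∀ (K : Type) [Field K] (k : ℕ) (c : Fin (k + 1) → Pol K), c ≠ 0 →
  (∀ g : Pol K, (∀ l, g ∣ c l) → IsUnit g) → Set.Finite {p : Fin 2 → K | ∀ l, eval p (c l) = 0}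

/-- the coordinates are algebraic over the coordinates of `f` -/
def S_Rel : Prop := ∀ (K : Type) [Field K] [CharZero K] (f : Fin 2 → Pol K),
  (∀ Φ : Pol K, (aeval f Φ : Pol K) = 0 → Φ = 0) → ∀ i : Fin 2,
  ∃ (k : ℕ) (c : Fin (k + 1) → Pol K), ∑ l, (aeval f (c l) : Pol K) * X i ^ (l : ℕ) = 0 ∧
    Set.Finite {p : Fin 2 → K | ∀ l, eval p (c l) = 0}

/-- the height cannot drop too much -/
def S_Low : Prop := ∀ (K : Type) [Field K] [NumberField K] (f : Fin 2 → Pol K)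
  (P : Fin 2 → K), Dense2 (orb f P) → ∃ c C : ℝ, 0 < c ∧ ∀ᶠ n in atTop,
    c * hP (orb f P n) ≤ hP (orb f P (n + 1)) + C

/-- sets of positive upper density have a difference which occurs infinitely often -/
def S_Gap : Prop := (∀ V : Set ℕ, ¬ Dens0 V → ∃ k : ℕ, 1 ≤ k ∧ {n | n ∈ V ∧ n + k ∈ V}.Infinite) ∧
  (∀ V W : Set ℕ, Dens0 V → Dens0 W → Dens0 (V ∪ W)) ∧
  (∀ V W : Set ℕ, V ⊆ W → Dens0 W → Dens0 V) ∧ Dens0 ∅

/-- a dense orbit visits an irreducible curve in a set of density zero -/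
def S_VisI : Prop := ∀ (K : Type) [Field K] (f : Fin 2 → Pol K) (P : Fin 2 → K),
  Dense2 (orb f P) → ∀ Z : Pol K, Irreducible Z → Dens0 {n | eval (orb f P n) Z = 0}

/-- a dense orbit visits a curve in a set of density zero -/
def S_Vis : Prop := ∀ (K : Type) [Field K] (f : Fin 2 → Pol K) (P : Fin 2 → K),
  Dense2 (orb f P) → ∀ Z : Pol K, Z ≠ 0 → Dens0 {n | eval (orb f P n) Z = 0}

/-- the growth of the heights, real analysis -/
def S_Lim : Prop := ∀ (h : ℕ → ℝ) (d c δ C : ℝ) (m₀ : ℕ), 1 < d → 0 < c → 0 < δ →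
  (∀ n, 0 ≤ h n) → Tendsto h atTop atTop → (∀ n, h (n + 1) ≤ d * h n + C) →
  (∀ᶠ n in atTop, c * h n ≤ h (n + 1) + C) →
  (∀ m, m₀ ≤ m → ∃ (Z : Set ℕ) (C' : ℝ), Dens0 Z ∧ ∀ n, n ∉ Z →
    δ * d ^ m * h n ≤ h (n + m) + C') →
  Tendsto (fun n : ℕ => h n ^ ((1 : ℝ) / n)) atTop (𝓝 d)

/-! ## The theorem -/

/-- the theorem, with the hypothesis `Bases` -/
def S_Main : Prop := ∀ (K : Type) [Field K] [NumberField K] (f : Fin 2 → Pol K) (d : ℕ)
  (P : Fin 2 → K), 2 ≤ d → (∀ n, dg f n = d ^ n) → Bases f d → Dense2 (orb f P) →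
  Tendsto (fun n : ℕ => (hP (orb f P n) / Module.finrank ℚ K) ^ ((1 : ℝ) / n)) atTop (𝓝 d)

/-- homogenisation of a polynomial in one variable to degree `L` -/
noncomputable def hom1 {K : Type} [Field K] (L : ℕ) (p : Polynomial K) : Pol K :=
  ∑ k ∈ Finset.range (L + 1), C (p.coeff k) * X 0 ^ k * X 1 ^ (L - k)

/-- properties of `hom1` -/
def S_Hom1 : Prop := ∀ (K : Type) [Field K],
  (∀ (L : ℕ) (p : Polynomial K), (hom1 L p).IsHomogeneous L) ∧
  (∀ (L L' : ℕ) (p p' : Polynomial K), p.natDegree ≤ L → p'.natDegree ≤ L' →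
    hom1 (L + L') (p * p') = hom1 L p * hom1 L' p') ∧
  (∀ (L : ℕ) (p p' : Polynomial K), hom1 L (p + p') = hom1 L p + hom1 L p') ∧
  (∀ L : ℕ, hom1 L (1 : Polynomial K) = X 1 ^ L) ∧
  (∀ (L : ℕ) (G : Pol K), G.IsHomogeneous L →
    (aeval ![Polynomial.X, 1] G : Polynomial K).natDegree ≤ L ∧
      hom1 L (aeval ![Polynomial.X, 1] G : Polynomial K) = G) ∧
  (∀ (L : ℕ) (p : Polynomial K), p.natDegree ≤ L → hom1 L p = 0 → p = 0)

/-- coprime monic polynomials in one variable give forms without common zero -/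
def S_CopH : Prop := ∀ (K : Type) [Field K] (p p' : Polynomial K), p.Monic → p'.Monic →
  IsCoprime p p' → CopF (hom1 p.natDegree p) (hom1 p'.natDegree p') p.natDegree p'.natDegree

/-- base points at infinity over the algebraic closure give forms over `K` -/
def S_BF : Prop := ∀ (K : Type) [Field K] (f : Fin 2 → Pol K) (d : ℕ), 1 ≤ d →
  (∀ n, dg f n = d ^ n) →
  Set.Infinite {z : AlgebraicClosure K | ∃ j, ∀ i : Fin 2,
    (aeval ![z, 1] (homogeneousComponent (d ^ j) (it f j i)) : AlgebraicClosure K) = 0} →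
  Bases f d

end Pool.Agent.Work.MP_91e6de_nt.BL
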